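import Pool.Agent.H95.AD.TargetsU

/-!
# NWP: the local weights for a fundamental discriminant
-/

set_option autoImplicit false

namespace Pool.Agent.H49.AD

open Pool.Agent.H31.CN Pool.Agent.H95.AD

/-- The local weights at one prime. -/
theorem local_weights (hNRF : T_NRF) (p D A e : ℕ) (B C : ℤ) (hp : p.Prime) (hD : 3 < D)
    (hD4 : D % 4 = 3) (hDs : Squarefree D) (hA : 1 ≤ A) (h : 4 * (A : ℤ) * C - B ^ 2 = D) :
    (N1 p A B C e : ℝ) = ∑ j ∈ Finset.range 3, (if p ^ j ∣ A then uw p D e 1 j else 0) ∧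
    (N2 p A B C e : ℝ) = ∑ j ∈ Finset.range 3, (if p ^ j ∣ A then uw p D e 2 j else 0) := by
  obtain ⟨h1, h2, h3⟩ := hNRF p D A B C hp hD hD4 hDs hA h
  have r1 : (nrt p A B C : ℝ) = 1 + (chi p D : ℝ) - (if p ∣ A then 1 else 0) := by
    have := congrArg (Int.cast : ℤ → ℝ) h1
    push_cast at this
    exact this
  have r2 : (nrt (p ^ 2) A B C : ℝ) =
      (if p ∣ D then 0 else 1 + (chi p D : ℝ) - (if p ∣ A then 1 else 0)) := by
    have := congrArg (Int.cast : ℤ → ℝ) h2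
    push_cast at this
    exact this
  have r3 : p ∣ A → (nrt p ((A / p : ℕ) : ℤ) B (p * C) : ℝ) =
      1 + (chi p D : ℝ) - (if p ^ 2 ∣ A then 1 else 0) := by
    intro hpA
    have h4 := h3 hpA
    generalize nrt p ((A / p : ℕ) : ℤ) B (p * C) = x at h4 ⊢
    have := congrArg (Int.cast : ℤ → ℝ) h4
    push_cast at this
    exact this
  have i1 : p ^ 2 ∣ A → p ∣ A := fun h => (dvd_pow_self p two_ne_zero).trans h
  have i2 : p ^ 2 ∣ e → p ∣ e := fun h => (dvd_pow_self p two_ne_zero).trans h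
  rw [Finset.sum_range_succ, Finset.sum_range_succ, Finset.sum_range_one,
    Finset.sum_range_succ, Finset.sum_range_succ, Finset.sum_range_one]
  unfold N1 N2 uw
  generalize nrt p ((A / p : ℕ) : ℤ) B (p * C) = x at r3 ⊢
  push_cast
  rw [r1, r2]
  simp only [pow_zero, pow_one, one_dvd, if_true]
  constructor
  · by_cases a1 : p ∣ A <;> by_cases b1 : p ∣ e <;> simp [a1, b1]
  · by_cases a2 : p ^ 2 ∣ A
    · have a1 := i1 a2
      rw [r3 a1]
      by_cases b2 : p ^ 2 ∣ e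
      · have b1 := i2 b2
        by_cases d1 : p ∣ D <;> simp [a1, a2, b1, b2, d1] <;> ring
      · by_cases b1 : p ∣ e <;> by_cases d1 : p ∣ D <;> simp [a1, a2, b1, b2, d1] <;> ring
    · by_cases a1 : p ∣ A
      · rw [r3 a1]
        by_cases b2 : p ^ 2 ∣ e
        · have b1 := i2 b2
          by_cases d1 : p ∣ D <;> simp [a1, a2, b1, b2, d1] <;> ring
        · by_cases b1 : p ∣ e <;> by_cases d1 : p ∣ D <;> simp [a1, a2, b1, b2, d1] <;> ring
      · by_cases b2 : p ^ 2 ∣ e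
        · have b1 := i2 b2
          by_cases d1 : p ∣ D <;> simp [a1, a2, b1, b2, d1] <;> ring
        · by_cases b1 : p ∣ e <;> by_cases d1 : p ∣ D <;> simp [a1, a2, b1, b2, d1] <;> ring

theorem pf_NWP (hNRF : T_NRF) : T_NWP := by
  intro m₁ m₂ D A e B C hm₁ hm₂ hD hD4 hDs hA he h
  unfold Nw
  push_cast
  refine Finset.prod_congr rfl fun p hp => ?_
  have hpp : p.Prime := Nat.prime_of_mem_primeFactors hp
  have hpm : p ∣ m₁ * m₂ := Nat.dvd_of_mem_primeFactors hp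
  obtain ⟨k1, k2⟩ := local_weights hNRF p D A e B C hpp hD hD4 hDs hA h
  by_cases hb : p ∣ m₁ ∧ p ∣ m₂
  · have ht : tt p m₁ m₂ = 2 := by unfold tt; rw [if_pos hb.1, if_pos hb.2]
    rw [if_pos hb, k2, ht]
  · have ht : tt p m₁ m₂ = 1 := by
      unfold tt
      rcases (hpp.dvd_mul).1 hpm with h1 | h1
      · have h2 : ¬ p ∣ m₂ := fun h2 => hb ⟨h1, h2⟩
        rw [if_pos h1, if_neg h2]
      · have h2 : ¬ p ∣ m₁ := fun h2 => hb ⟨h2, h1⟩
        rw [if_pos h1, if_neg h2]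
    rw [if_neg hb, k1, ht]

end Pool.Agent.H49.AD
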